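import Pool.Agent.Helper57.PD.Last

/-!
# GPOLY, leg 1

`G` a connected plane shadow, `c` a complex function on the faces which vanishes on both sides of one edge and satisfies
`c N - ζ c S = (1 - ζ) κ (c W + c E)` at every crossing, `κ ≠ 0` real, `|ζ| < 1`: then `c = 0`.
Proof: `q e = |c L|² + |c R|² - 2 κ Re (conj (c L) (c R))` (doubled) changes at a crossing by `|N - κ y|² - |S - κ y|² ≤ 0`, `y = W + E`, and the sum over all
crossings vanishes.
-/

set_option autoImplicit false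

namespace Pool.Agent.Helper8.GD

open Pool.Agent.Helper85.Exp Pool.Agent.Helper2.PD Pool.Agent.Helper57.PD Pool.Agent.Helper16.PD Pool.Agent.Helper60.EV2
  Pool.Agent.Helper27.EV2 Matrix

/-- the energy of an edge -/
noncomputable def qe (κ : ℝ) (l r : ℂ) : ℝ :=
  (l.re ^ 2 + l.im ^ 2) + (r.re ^ 2 + r.im ^ 2) - 4 * κ * (l.re * r.re + l.im * r.im)

/-- one crossing: in minus out -/
theorem cross_energy {κ : ℝ} {ζ n s w e : ℂ} (h : n - ζ * s - (1 - ζ) * κ * (w + e) = 0) :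
    (qe κ s e + qe κ w s) - (qe κ w n + qe κ n e) = 2 * (1 - ‖ζ‖ ^ 2) * ‖s - κ * (w + e)‖ ^ 2 := by
  have h1 : n - κ * (w + e) = ζ * (s - κ * (w + e)) := by linear_combination h
  have h2 : ‖n - κ * (w + e)‖ ^ 2 = ‖ζ‖ ^ 2 * ‖s - κ * (w + e)‖ ^ 2 := by
    rw [h1, norm_mul, mul_pow]
  have h3 : ∀ u : ℂ, ‖u - κ * (w + e)‖ ^ 2 = (u.re - κ * (w.re + e.re)) ^ 2 + (u.im - κ * (w.im + e.im)) ^ 2 := by
    intro u
    rw [← Complex.normSq_eq_norm_sq, Complex.normSq_apply]
    simp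
    ring
  have h4 : 2 * (1 - ‖ζ‖ ^ 2) * ‖s - κ * (w + e)‖ ^ 2 = 2 * ‖s - κ * (w + e)‖ ^ 2 - 2 * ‖n - κ * (w + e)‖ ^ 2 := by
    rw [h2]; ring
  rw [h4, h3, h3]
  unfold qe
  ring

variable {P : Type} {G : Sh P}

open Classical in
/-- the sum over the passages splits into the two passages of the crossings -/
theorem sum_split [Fintype P] (ho : ∀ i, G.op i ≠ i) (f : P → ℝ) :
    ∑ i : P, f i = ∑ p ∈ Finset.univ.filter (fun p : P => G.lf p = true), (f p + f (G.op p)) := by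
  rw [Finset.sum_add_distrib]
  have h1 : ∑ p ∈ Finset.univ.filter (fun p : P => G.lf p = true), f (G.op p) =
      ∑ p ∈ Finset.univ.filter (fun p : P => ¬ G.lf p = true), f p := by
    refine Finset.sum_nbij' G.op G.op ?_ ?_ ?_ ?_ ?_
    · intro p hp
      simp only [Finset.mem_filter, Finset.mem_univ, true_and] at hp ⊢
      rw [G.lf_op p (ho p), hp]
      simp
    · intro p hp
      simp only [Finset.mem_filter, Finset.mem_univ, true_and] at hp ⊢
      rw [G.lf_op p (ho p)]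
      simpa using hp
    · intro p _
      exact G.op_op p
    · intro p _
      exact G.op_op p
    · intro p _
      rfl
  rw [h1, Finset.sum_filter_add_sum_filter_not]

/-- **Leg 1**, for face functions. -/
theorem leg1_face [Fintype P] (ho : ∀ i, G.op i ≠ i) (hc : Conn G) {ζ : ℂ} (hζ : ‖ζ‖ < 1) {κ : ℝ} (hκ : κ ≠ 0)
    (c : Face G → ℂ)
    (hrow : ∀ p, G.lf p = true →
      c (Rf G p) - ζ * c (Lf G (G.nxt.symm p)) - (1 - ζ) * κ * (c (Lf G p) + c (Rf G (G.op p))) = 0)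
    {e₀ : P} (h1 : c (Lf G e₀) = 0) (h2 : c (Rf G e₀) = 0) (f : Face G) : c f = 0 := by
  classical
  -- the energies of the edges
  set q : P → ℝ := fun e => qe κ (c (Lf G e)) (c (Rf G e)) with hq
  have cr : ∀ p, G.lf p = true → (q (G.nxt.symm p) + q (G.nxt.symm (G.op p))) - (q p + q (G.op p)) =
      2 * (1 - ‖ζ‖ ^ 2) * ‖c (Lf G (G.nxt.symm p)) - κ * (c (Lf G p) + c (Rf G (G.op p)))‖ ^ 2 := by
    intro p hp
    rw [← cross_energy (hrow p hp)]
    simp only [hq]
    rw [corner_E hp (ho p), ← corner_S hp, ← corner_W hp (ho p), ← corner_N hp]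
  have tot : ∑ p ∈ Finset.univ.filter (fun p : P => G.lf p = true),
      ((q (G.nxt.symm p) + q (G.nxt.symm (G.op p))) - (q p + q (G.op p))) = 0 := by
    rw [Finset.sum_sub_distrib, ← sum_split ho q, ← sum_split ho fun i => q (G.nxt.symm i), sub_eq_zero]
    exact Equiv.sum_comp G.nxt.symm q
  have hz : 0 < 1 - ‖ζ‖ ^ 2 := by
    have := norm_nonneg ζ
    nlinarith
  have each : ∀ p, G.lf p = true → c (Lf G (G.nxt.symm p)) = κ * (c (Lf G p) + c (Rf G (G.op p))) ∧
      c (Rf G p) = κ * (c (Lf G p) + c (Rf G (G.op p))) := by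
    intro p hp
    have h3 := (Finset.sum_eq_zero_iff_of_nonneg (fun p hp => by
      rw [cr p (Finset.mem_filter.1 hp).2]
      positivity)).1 tot p (Finset.mem_filter.2 ⟨Finset.mem_univ _, hp⟩)
    rw [cr p hp] at h3
    have h4 : ‖c (Lf G (G.nxt.symm p)) - κ * (c (Lf G p) + c (Rf G (G.op p)))‖ ^ 2 = 0 := by
      rcases mul_eq_zero.1 h3 with h | h
      · exfalso; linarith
      · exact h
    have h5 : c (Lf G (G.nxt.symm p)) - κ * (c (Lf G p) + c (Rf G (G.op p))) = 0 := by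
      rw [← norm_eq_zero]
      exact pow_eq_zero_iff (two_ne_zero) |>.1 h4
    refine ⟨sub_eq_zero.1 h5, ?_⟩
    have h6 := hrow p hp
    linear_combination h6 + ζ * h5
  have hκ' : (κ : ℂ) ≠ 0 := by exact_mod_cast hκ
  -- the four edges of a crossing vanish together
  let Z : P → Prop := fun e => c (Lf G e) = 0 ∧ c (Rf G e) = 0
  have four : ∀ p, G.lf p = true → (Z (G.nxt.symm p) ∨ Z (G.nxt.symm (G.op p)) ∨ Z p ∨ Z (G.op p)) →
      (Z (G.nxt.symm p) ∧ Z (G.nxt.symm (G.op p)) ∧ Z p ∧ Z (G.op p)) := by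
    intro p hp h
    obtain ⟨a1, a2⟩ := each p hp
    have cE := corner_E hp (ho p)
    have cS := corner_S hp
    have cW := corner_W hp (ho p)
    have cN := corner_N hp
    have key : c (Lf G p) = 0 ∧ c (Rf G (G.op p)) = 0 := by
      rcases h with ⟨b1, b2⟩ | ⟨b1, b2⟩ | ⟨b1, b2⟩ | ⟨b1, b2⟩
      · rw [cE] at b2
        rw [b1, b2, add_zero] at a1
        exact ⟨(mul_eq_zero.1 a1.symm).resolve_left hκ', b2⟩
      · rw [← cW] at b1
        rw [← cS] at b2
        rw [b1, b2, zero_add] at a1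
        exact ⟨b1, (mul_eq_zero.1 a1.symm).resolve_left hκ'⟩
      · rw [b1, b2, zero_add] at a2
        exact ⟨b1, (mul_eq_zero.1 a2.symm).resolve_left hκ'⟩
      · rw [← cN] at b1
        rw [b1, b2, add_zero] at a2
        exact ⟨(mul_eq_zero.1 a2.symm).resolve_left hκ', b2⟩
    obtain ⟨k1, k2⟩ := key
    rw [k1, k2, add_zero, mul_zero] at a1 a2
    refine ⟨⟨a1, by rw [cE]; exact k2⟩, ⟨by rw [← cW]; exact k1, by rw [← cS]; exact a1⟩, ⟨k1, a2⟩, ⟨by rw [← cN]; exact a2, k2⟩⟩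
  have all : ∀ v, Z (G.nxt.symm v) := by
    have step : ∀ v, Z (G.nxt.symm v) → Z v ∧ Z (G.nxt.symm (G.op v)) := by
      intro v hv
      cases hl : G.lf v with
      | true =>
        have := four v hl (Or.inl hv)
        exact ⟨this.2.2.1, this.2.1⟩
      | false =>
        have hl' : G.lf (G.op v) = true := by rw [G.lf_op v (ho v), hl]; rfl
        have := four (G.op v) hl' (Or.inr (Or.inl (by rw [G.op_op]; exact hv)))
        rw [G.op_op] at this
        exact ⟨this.2.2.2, this.1⟩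
    have step' : ∀ v, Z v → Z (G.nxt.symm v) := by
      intro v hv
      cases hl : G.lf v with
      | true => exact (four v hl (Or.inr (Or.inr (Or.inl hv)))).1
      | false =>
        have hl' : G.lf (G.op v) = true := by rw [G.lf_op v (ho v), hl]; rfl
        have := four (G.op v) hl' (Or.inr (Or.inr (Or.inr (by rw [G.op_op]; exact hv))))
        rw [G.op_op] at this
        exact this.2.1
    refine hc (fun v => Z (G.nxt.symm v)) ⟨G.nxt e₀, ?_⟩ ?_ ?_
    · show Z (G.nxt.symm (G.nxt e₀))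
      rw [Equiv.symm_apply_apply]
      exact ⟨h1, h2⟩
    · intro v
      show Z (G.nxt.symm (G.nxt v)) ↔ _
      rw [Equiv.symm_apply_apply]
      exact ⟨step' v, fun h => (step v h).1⟩
    · intro v
      constructor
      · intro h
        have := (step _ h).2
        rwa [G.op_op] at this
      · intro h
        exact (step _ h).2
  have all' : ∀ v, Z v := by
    intro v
    have := all (G.nxt v)
    rwa [Equiv.symm_apply_apply] at this
  exact face_ind (p := fun f => c f = 0) (fun i => (all' i).1) (fun i => (all' i).2) f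

theorem prod_diff {ι E : Type*} [NormedAddCommGroup E] [NormedSpace ℂ E] (s : Finset ι) (f : ι → E → ℂ)
    (h : ∀ i, Differentiable ℂ (f i)) : Differentiable ℂ fun x => ∏ i ∈ s, f i x := by
  classical
  induction s using Finset.induction_on with
  | empty => simp
  | insert a s ha ih =>
    simp only [Finset.prod_insert ha]
    exact (h a).mul ih

section det

variable [Fintype P] {s : ℕ}

open Classical in
/-- the face determinant with the parameters `ζ`, `κ` -/
noncomputable def Fdet (h : Good s G) (b : P) (e : Cr G ≃ (fdG h b).Col) (ζ κ : ℂ) : ℂ :=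
  (((fdG h b).A (-ζ) (-((1 - ζ) * κ)) (-((1 - ζ) * κ))).submatrix id e).det

/-- the row in the parameters `ζ`, `κ` -/
theorem row_zk (h : Good s G) (b : P) (ζ κ : ℂ) (c : Face G → ℂ) (x : Cr G) :
    (fdG h b).row (-ζ) (-((1 - ζ) * κ)) (-((1 - ζ) * κ)) c x =
      c (Rf G x.1) - ζ * c (Lf G (G.nxt.symm x.1)) - (1 - ζ) * κ * (c (Lf G x.1) + c (Rf G (G.op x.1))) := by
  show c (Rf G x.1) + -ζ * c (Lf G (G.nxt.symm x.1)) + -((1 - ζ) * κ) * c (Lf G x.1) + -((1 - ζ) * κ) * c (Rf G (G.op x.1)) = _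
  ring

open Classical in
/-- no kernel vector, no zero of the determinant -/
theorem Fdet_ne (h : Good s G) (b : P) (e : Cr G ≃ (fdG h b).Col) (ζ κ : ℂ)
    (ker : ∀ c : Face G → ℂ, c (Lf G (G.nxt.symm b)) = 0 → c (Rf G (G.nxt.symm b)) = 0 →
      (∀ p, G.lf p = true →
        c (Rf G p) - ζ * c (Lf G (G.nxt.symm p)) - (1 - ζ) * κ * (c (Lf G p) + c (Rf G (G.op p))) = 0) → ∀ f, c f = 0) :
    Fdet h b e ζ κ ≠ 0 := by
  have : Fintype (Face G) := Fintype.ofFinite _
  intro hdet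
  obtain ⟨y, hy0, hy⟩ := Matrix.exists_mulVec_eq_zero_iff.2 hdet
  let c : Face G → ℂ := fun f => if hf : f ≠ (fdG h b).f₁ ∧ f ≠ (fdG h b).f₂ then y (e.symm ⟨f, hf⟩) else 0
  have c1 : c (fdG h b).f₁ = 0 := dif_neg (fun h1 => h1.1 rfl)
  have c2 : c (fdG h b).f₂ = 0 := dif_neg (fun h1 => h1.2 rfl)
  have c3 : ∀ x : Cr G, c (e x).1 = y x := fun x => by
    simp only [c]
    rw [dif_pos (e x).2]
    congr 1
    exact e.symm_apply_apply x
  have c4 : ∀ x, (fdG h b).row (-ζ) (-((1 - ζ) * κ)) (-((1 - ζ) * κ)) c x = 0 := by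
    intro x
    rw [← (fdG h b).mulVec_row _ _ _ c c1 c2 x]
    have c5 : ∑ z, (fdG h b).A (-ζ) (-((1 - ζ) * κ)) (-((1 - ζ) * κ)) x (e z) * y z = 0 := congrFun hy x
    rw [← c5, ← Equiv.sum_comp e fun f => (fdG h b).A (-ζ) (-((1 - ζ) * κ)) (-((1 - ζ) * κ)) x f * c f.1]
    exact Finset.sum_congr rfl fun z _ => by rw [c3]
  apply hy0
  funext x
  rw [← c3 x]
  exact ker c c1 c2 (fun p hp => by rw [← row_zk h b ζ κ c ⟨p, hp⟩]; exact c4 _) _

/-- **Leg 1**, for the face determinant. -/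
theorem Fdet_leg1 (h : Good s G) (b : P) (e : Cr G ≃ (fdG h b).Col) {ζ : ℂ} (hζ : ‖ζ‖ < 1) {κ : ℝ} (hκ : κ ≠ 0) :
    Fdet h b e ζ κ ≠ 0 :=
  Fdet_ne h b e ζ κ fun c c1 c2 hr => leg1_face h.ho h.hc hζ hκ c hr c1 c2

open Classical in
/-- the determinant is a polynomial in `ζ`, `κ` -/
theorem Fdet_diff (h : Good s G) (b : P) (e : Cr G ≃ (fdG h b).Col) :
    Differentiable ℂ fun q : ℂ × ℂ => Fdet h b e q.1 q.2 := by
  unfold Fdet
  simp only [Matrix.det_apply', Matrix.submatrix_apply, id_eq]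
  refine Differentiable.fun_sum fun σ _ => ?_
  refine Differentiable.const_mul ?_ _
  refine prod_diff _ _ fun i => ?_
  unfold Fd.A Fd.row
  fun_prop

open Classical in
/-- zeros of the Conway polynomial are zeros of the determinant -/
theorem nab_ne_of_Fdet (h : Good s G) (b : P) {nab : Dg G → Polynomial ℤ} {e : Cr G ≃ (fdG h b).Col} {α : ℤ}
    (hform : ∀ z : ℂ, z ≠ 0 → W G.nxt G.op (kd z z⁻¹ (allPos G)) b =
        z ^ ((Nat.card (Cr G) : ℤ) + α) * Polynomial.aeval (z⁻¹ - z) (nab (allPos G)))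
    (hA : ∀ z : ℂ, z ≠ 0 → ‖W G.nxt G.op (kd z z⁻¹ (allPos G)) b‖ =
        ‖z‖ ^ α * ‖(((fdG h b).A (z ^ 2) (-z) (-z)).submatrix id e).det‖)
    {z : ℂ} (hz : z ≠ 0) (hz2 : 1 + z ^ 2 ≠ 0) (hF : Fdet h b e (-z ^ 2) (z / (1 + z ^ 2)) ≠ 0) :
    Polynomial.aeval (z⁻¹ - z) (nab (allPos G)) ≠ 0 := by
  intro h0
  apply hF
  have h1 := hA z hz
  rw [hform z hz, h0, mul_zero, norm_zero] at h1
  have h2 : ‖z‖ ^ α ≠ 0 := zpow_ne_zero _ (norm_ne_zero_iff.2 hz)
  have h3 : ‖(((fdG h b).A (z ^ 2) (-z) (-z)).submatrix id e).det‖ = 0 := (mul_eq_zero.1 h1.symm).resolve_left h2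
  have h4 : (1 - -z ^ 2) * (z / (1 + z ^ 2)) = z := by field_simp; ring
  unfold Fdet
  rw [h4, neg_neg]
  exact norm_eq_zero.1 h3

end det

end Pool.Agent.Helper8.GD
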