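import Pool.Agent.Helper7.UNI.DecD
import Pool.Agent.Helper57.GD.Half
import Pool.Agent.Helper8.GD.Leg1

/-!
# GPOLY, (F): from the bound of the face determinant to the bound of the Conway polynomial
-/

set_option autoImplicit false

namespace Pool.Agent.Helper8.GD

open Polynomial Pool.Agent.Helper7.UNI Pool.Agent.Helper99.ZB

/-- the optimal `σ` -/
theorem exists_sigma {z : ℂ} (hre : z.re ≠ 0) : ∃ (s : ℂ) (σ X : ℝ), s ≠ 0 ∧ ‖s‖ < 1 ∧ z = s⁻¹ - s ∧ 1 ≤ σ ∧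
    1 + ‖s‖ ^ 4 + 2 * s.im ^ 2 ≤ σ ^ 2 + ‖s‖ ^ 4 / σ ^ 2 ∧ 0 ≤ X ∧ X ≤ ‖z‖ ^ 2 - 2 * z.im ^ 2 / (‖z‖ ^ 2 + 4) ∧
    σ = Yf X * ‖s‖ := by
  obtain ⟨Z, hZ⟩ : ∃ Z, Z = ‖z‖ ^ 2 := ⟨_, rfl⟩
  have hZ0 : 0 ≤ Z := by rw [hZ]; positivity
  have hZ2 : Z = z.re ^ 2 + z.im ^ 2 := by
    rw [hZ, ← Complex.normSq_eq_norm_sq, Complex.normSq_apply]
    ring
  obtain ⟨s, hs0, hs1, hzs⟩ := exists_s z
  obtain ⟨a, ha⟩ : ∃ a, a = ‖s‖ := ⟨_, rfl⟩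
  have ha0 : 0 < a := by rw [ha]; exact norm_pos_iff.2 hs0
  have hna : s.re ^ 2 + s.im ^ 2 = a ^ 2 := by
    rw [ha, ← Complex.normSq_eq_norm_sq, Complex.normSq_apply]
    ring
  have hinv : s⁻¹ = (((a ^ 2)⁻¹ : ℝ) : ℂ) * (starRingEnd ℂ) s := by
    rw [Complex.inv_def, Complex.normSq_eq_norm_sq, ← ha, mul_comm]
  have hzre : z.re = s.re * (1 - a ^ 2) / a ^ 2 := by
    rw [hzs, Complex.sub_re, hinv, Complex.re_ofReal_mul, Complex.conj_re]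
    field_simp
  have hzim : z.im = -(s.im * (1 + a ^ 2) / a ^ 2) := by
    rw [hzs, Complex.sub_im, hinv, Complex.im_ofReal_mul, Complex.conj_im]
    field_simp
    ring
  have ha1 : a < 1 := by
    rw [← ha] at hs1
    rcases lt_or_eq_of_le hs1 with h1 | h1
    · exact h1
    · rw [hzre, h1] at hre
      norm_num at hre
  obtain ⟨S, hS⟩ : ∃ S, S = s.im ^ 2 / a ^ 2 := ⟨_, rfl⟩
  have hSa : s.im ^ 2 = S * a ^ 2 := by rw [hS]; field_simp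
  have hS0 : 0 ≤ S := by rw [hS]; positivity
  have hre2 : s.re ^ 2 = (1 - S) * a ^ 2 := by linarith
  obtain ⟨b, hb⟩ : ∃ b, b = a⁻¹ - a := ⟨_, rfl⟩
  have hba : b * a = 1 - a ^ 2 := by rw [hb]; field_simp
  have hb0 : 0 < b := by
    have : 0 < b * a := by rw [hba]; nlinarith
    exact (mul_pos_iff_of_pos_right ha0).1 this
  have hzr2 : z.re ^ 2 * a ^ 2 = (1 - S) * (1 - a ^ 2) ^ 2 := by
    rw [hzre, div_pow, mul_pow, hre2]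
    field_simp
  have hzi2 : z.im ^ 2 * a ^ 2 = S * (1 + a ^ 2) ^ 2 := by
    rw [hzim, neg_sq, div_pow, mul_pow, hSa]
    field_simp
  have hZb : Z = b ^ 2 + 4 * S := by
    have h1 : Z * a ^ 2 = (b ^ 2 + 4 * S) * a ^ 2 := by
      have e1 : b ^ 2 * a ^ 2 = (1 - a ^ 2) ^ 2 := by rw [← mul_pow, hba]
      rw [hZ2]
      linear_combination hzr2 + hzi2 - e1
    exact mul_right_cancel₀ (by positivity) h1
  have hzi3 : 2 * z.im ^ 2 = 2 * S * (b ^ 2 + 4) := by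
    have h1 : 2 * z.im ^ 2 * a ^ 2 = 2 * S * (b ^ 2 + 4) * a ^ 2 := by
      have e1 : b ^ 2 * a ^ 2 = (1 - a ^ 2) ^ 2 := by rw [← mul_pow, hba]
      linear_combination 2 * hzi2 - 2 * S * e1
    exact mul_right_cancel₀ (by positivity) h1
  -- the root
  obtain ⟨X, hX⟩ : ∃ X, X = Z - 2 * S := ⟨_, rfl⟩
  have hX0 : 0 ≤ X := by rw [hX, hZb]; nlinarith [sq_nonneg b]
  have hXle : X ≤ Z - 2 * z.im ^ 2 / (Z + 4) := by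
    rw [hX, hzi3]
    have h1 : 2 * S * (b ^ 2 + 4) / (Z + 4) ≤ 2 * S := by
      rw [div_le_iff₀ (by positivity), hZb]
      nlinarith
    linarith
  obtain ⟨Y, hY⟩ : ∃ Y, Y = Yf X := ⟨_, rfl⟩
  have hY1 : 1 ≤ Y := by rw [hY]; exact Yf_ge_one hX0
  have hYs : Y ^ 2 = 1 + √X * Y := by rw [hY]; exact Yf_sq hX0
  have hbX : b ≤ √X := by
    apply Real.le_sqrt_of_sq_le
    rw [hX, hZb]
    linarith
  have hYa : 1 ≤ Y * a := by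
    by_contra hlt
    push Not at hlt
    -- `Y < 1 / a` gives `Y - 1 / Y < b`
    have h1 : Y < a⁻¹ := by
      rw [lt_inv_comm₀ (by linarith) ha0]
      rw [lt_inv_comm₀ ha0 (by linarith)]
      rwa [← one_div, lt_div_iff₀ ha0]
    have h2 : a < Y⁻¹ := (lt_inv_comm₀ ha0 (by linarith)).2 h1
    have h3 : √X = Y - Y⁻¹ := by
      have hY0 : Y ≠ 0 := by positivity
      field_simp
      linarith
    rw [h3, hb] at hbX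
    linarith
  have hYY : Y ^ 2 + (Y ^ 2)⁻¹ = X + 2 := by
    have hY0 : Y ≠ 0 := by positivity
    have h3 : √X = Y - Y⁻¹ := by
      field_simp
      linarith
    have h4 := Real.sq_sqrt hX0
    rw [h3] at h4
    have h5 : (Y - Y⁻¹) ^ 2 = Y ^ 2 + (Y ^ 2)⁻¹ - 2 := by
      field_simp
      ring
    linarith
  refine ⟨s, Y * a, X, hs0, by rw [← ha]; exact ha1, hzs, hYa, ?_, hX0, by rw [← hZ]; exact hXle, by rw [hY, ha]⟩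
  rw [← ha, hSa]
  have e1 : (Y * a) ^ 2 + a ^ 4 / (Y * a) ^ 2 = a ^ 2 * (Y ^ 2 + (Y ^ 2)⁻¹) := by
    have hY0 : Y ≠ 0 := by positivity
    field_simp
  rw [e1, hYY, hX, hZb]
  have e2 : b ^ 2 * a ^ 2 = (1 - a ^ 2) ^ 2 := by rw [← mul_pow, hba]
  have e3 : a ^ 2 * (b ^ 2 + 4 * S - 2 * S + 2) = 1 + a ^ 4 + 2 * (S * a ^ 2) := by
    linear_combination e2
  rw [e3]

/-- the bound off the imaginary axis -/
theorem up_re {c : ℕ} {p : ℤ[X]} {D : ℂ → ℝ} {B : ℂ → ℝ} (hB : ∀ z, 0 ≤ B z)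
    (hp : ∀ s : ℂ, s ≠ 0 → ‖aeval (s⁻¹ - s) p‖ * ‖s‖ ^ c = D s)
    (H : ∀ (s : ℂ) (σ : ℝ), s ≠ 0 → ‖s‖ < 1 → 1 ≤ σ → 1 + ‖s‖ ^ 4 + 2 * s.im ^ 2 ≤ σ ^ 2 + ‖s‖ ^ 4 / σ ^ 2 →
      D s ≤ B (s⁻¹ - s) * σ ^ c) {z : ℂ} (hre : z.re ≠ 0) :
    ‖aeval z p‖ ≤ B z * (Yf (‖z‖ ^ 2) ^ c * Real.exp (-(c * (z.im ^ 2 / (‖z‖ * (‖z‖ ^ 2 + 4)) / (2 * Yf (‖z‖ ^ 2)))))) := by
  obtain ⟨s, σ, X, hs0, hs1, hz, hσ1, hσ, hX0, hX, hσY⟩ := exists_sigma hre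
  have h1 := H s σ hs0 hs1 hσ1 hσ
  rw [← hp s hs0, ← hz, hσY, mul_pow, ← mul_assoc] at h1
  have hn : 0 < ‖s‖ ^ c := pow_pos (norm_pos_iff.2 hs0) c
  have h2 := le_of_mul_le_mul_right h1 hn
  refine h2.trans (mul_le_mul_of_nonneg_left ?_ (hB z))
  have hz0 : z ≠ 0 := by
    rintro rfl
    exact hre rfl
  have hρ : 0 < ‖z‖ := norm_pos_iff.2 hz0
  have him : z.im ^ 2 ≤ ‖z‖ ^ 2 := by
    rw [← Complex.normSq_eq_norm_sq, Complex.normSq_apply]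
    nlinarith [mul_self_nonneg z.re]
  have hg0 : 0 ≤ z.im ^ 2 / (‖z‖ * (‖z‖ ^ 2 + 4)) := by positivity
  have hgρ : z.im ^ 2 / (‖z‖ * (‖z‖ ^ 2 + 4)) ≤ ‖z‖ := by
    rw [div_le_iff₀ (by positivity)]
    nlinarith [sq_nonneg (‖z‖ ^ 2), sq_nonneg ‖z‖]
  refine ypow hρ hg0 hgρ ?_ c
  refine hX.trans (le_of_eq ?_)
  field_simp

/-- the bound everywhere -/
theorem up_all {c : ℕ} {p : ℤ[X]} {D : ℂ → ℝ} {B : ℂ → ℝ} (hB : ∀ z, 0 ≤ B z) (hBc : ∀ z : ℂ, z ≠ 0 → ContinuousAt B z)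
    (hp : ∀ s : ℂ, s ≠ 0 → ‖aeval (s⁻¹ - s) p‖ * ‖s‖ ^ c = D s)
    (H : ∀ (s : ℂ) (σ : ℝ), s ≠ 0 → ‖s‖ < 1 → 1 ≤ σ → 1 + ‖s‖ ^ 4 + 2 * s.im ^ 2 ≤ σ ^ 2 + ‖s‖ ^ 4 / σ ^ 2 →
      D s ≤ B (s⁻¹ - s) * σ ^ c) {z : ℂ} (hz : z ≠ 0) :
    ‖aeval z p‖ ≤ B z * (Yf (‖z‖ ^ 2) ^ c * Real.exp (-(c * (z.im ^ 2 / (‖z‖ * (‖z‖ ^ 2 + 4)) / (2 * Yf (‖z‖ ^ 2)))))) := by
  rcases ne_or_eq z.re 0 with hre | hre
  · exact up_re hB hp H hre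
  -- the points `z + t`
  have hYc : Continuous Yf := by
    unfold Yf
    fun_prop
  have hYpos : ∀ w : ℂ, 0 < Yf (‖w‖ ^ 2) := fun w => lt_of_lt_of_le one_pos (Yf_ge_one (sq_nonneg _))
  have hn : ‖z‖ ≠ 0 := norm_ne_zero_iff.2 hz
  let φ : ℝ → ℂ := fun t => z + t
  have hφ : ContinuousAt φ 0 := by
    simp only [φ]
    fun_prop
  have hφ0 : φ 0 = z := by simp [φ]
  have c1 : Filter.Tendsto (fun t : ℝ => ‖aeval (φ t) p‖) (nhdsWithin 0 {0}ᶜ) (nhds ‖aeval z p‖) := by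
    have h1 : ContinuousAt (fun t : ℝ => ‖aeval (φ t) p‖) 0 := by
      have h2 : Continuous fun w : ℂ => aeval w p := (Polynomial.differentiable_aeval p).continuous
      exact (h2.norm.continuousAt).comp hφ
    have h3 := h1.tendsto
    simp only [hφ0] at h3
    exact h3.mono_left nhdsWithin_le_nhds
  have c2 : Filter.Tendsto (fun t : ℝ => B (φ t) * (Yf (‖φ t‖ ^ 2) ^ c *
      Real.exp (-(c * ((φ t).im ^ 2 / (‖φ t‖ * (‖φ t‖ ^ 2 + 4)) / (2 * Yf (‖φ t‖ ^ 2))))))) (nhdsWithin 0 {0}ᶜ)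
      (nhds (B z * (Yf (‖z‖ ^ 2) ^ c * Real.exp (-(c * (z.im ^ 2 / (‖z‖ * (‖z‖ ^ 2 + 4)) / (2 * Yf (‖z‖ ^ 2)))))))) := by
    have h1 : ContinuousAt (fun w : ℂ => B w * (Yf (‖w‖ ^ 2) ^ c *
        Real.exp (-(c * (w.im ^ 2 / (‖w‖ * (‖w‖ ^ 2 + 4)) / (2 * Yf (‖w‖ ^ 2))))))) z := by
      refine (hBc z hz).mul (ContinuousAt.mul ?_ ?_)
      · exact (hYc.continuousAt.comp (by fun_prop)).pow c
      · refine Real.continuous_exp.continuousAt.comp (ContinuousAt.neg (ContinuousAt.mul continuousAt_const ?_))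
        refine ContinuousAt.div (ContinuousAt.div (by fun_prop) (by fun_prop) (by positivity)) ?_ ?_
        · exact continuousAt_const.mul (hYc.continuousAt.comp (by fun_prop))
        · have := hYpos z
          positivity
    have h2 : ContinuousAt (fun t : ℝ => B (φ t) * (Yf (‖φ t‖ ^ 2) ^ c *
        Real.exp (-(c * ((φ t).im ^ 2 / (‖φ t‖ * (‖φ t‖ ^ 2 + 4)) / (2 * Yf (‖φ t‖ ^ 2))))))) 0 :=
      ContinuousAt.comp (g := fun w : ℂ => B w * (Yf (‖w‖ ^ 2) ^ c *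
        Real.exp (-(c * (w.im ^ 2 / (‖w‖ * (‖w‖ ^ 2 + 4)) / (2 * Yf (‖w‖ ^ 2))))))) (f := φ) (x := 0) (by rw [hφ0]; exact h1) hφ
    have h3 := h2.tendsto
    simp only [hφ0] at h3
    exact h3.mono_left nhdsWithin_le_nhds
  refine le_of_tendsto_of_tendsto c1 c2 ?_
  filter_upwards [self_mem_nhdsWithin] with t ht
  refine up_re hB hp H ?_
  simp only [φ, Complex.add_re, hre, Complex.ofReal_re, zero_add]
  exact ht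

/-- **The upper bound in the form `UpZ`.** -/
theorem upZ_of {c : ℕ} {p : ℤ[X]} {D : ℂ → ℝ} {C₀ : ℝ} (hC₀ : 1 ≤ C₀) {M₀ : ℕ}
    (hp : ∀ s : ℂ, s ≠ 0 → ‖aeval (s⁻¹ - s) p‖ * ‖s‖ ^ c = D s)
    (H : ∀ (s : ℂ) (σ : ℝ), s ≠ 0 → ‖s‖ < 1 → 1 ≤ σ → 1 + ‖s‖ ^ 4 + 2 * s.im ^ 2 ≤ σ ^ 2 + ‖s‖ ^ 4 / σ ^ 2 →
      D s ≤ (C₀ * (1 + ‖s⁻¹ - s‖) / min 1 ‖s⁻¹ - s‖ ^ 2) ^ M₀ * σ ^ c)
    {R κ : ℝ} (hR : 1 ≤ R) (hκ0 : 0 ≤ κ) (hκ : κ * (40 * (R * √R)) ≤ 1) :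
    Pool.Agent.Helper57.GD.UpZ (M₀ * (Real.log (2 * C₀) + Real.log R)) (2 * M₀) κ R c p := by
  intro z hz hzR
  obtain ⟨ρ, hρe⟩ : ∃ ρ, ρ = ‖z‖ := ⟨_, rfl⟩
  have hρ : 0 < ρ := by rw [hρe]; exact norm_pos_iff.2 hz
  have hmin : 0 < min 1 ρ := lt_min one_pos hρ
  have h1 := up_all (c := c) (p := p) (D := D) (B := fun z => (C₀ * (1 + ‖z‖) / min 1 ‖z‖ ^ 2) ^ M₀)
    (fun z => by
      have : 0 ≤ min 1 ‖z‖ := le_min zero_le_one (norm_nonneg z)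
      positivity)
    (fun z hz => by
      have h2 : 0 < min 1 ‖z‖ := lt_min one_pos (norm_pos_iff.2 hz)
      refine ContinuousAt.pow (ContinuousAt.div (by fun_prop) ?_ (by positivity)) M₀
      exact ((continuous_const.min continuous_norm).pow 2).continuousAt)
    hp H hz
  rw [← hρe] at h1 hzR ⊢
  have hY1 : 1 ≤ Yf (ρ ^ 2) := Yf_ge_one (sq_nonneg ρ)
  obtain ⟨Y, hY⟩ : ∃ Y, Y = Yf (ρ ^ 2) := ⟨_, rfl⟩
  rw [← hY] at hY1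
  have hsR : 1 ≤ √R := by
    rw [← Real.sqrt_one]
    exact Real.sqrt_le_sqrt hR
  have hρR : ρ ≤ √R := Real.le_sqrt_of_sq_le hzR
  have hsRR : √R ≤ R := by
    rw [Real.sqrt_le_left (by linarith)]
    nlinarith
  have hYR : Y ≤ 2 * √R := by
    have := Yf_sq_le hρ.le
    rw [← hY] at this
    linarith
  -- the factor
  have h2 : (C₀ * (1 + ρ) / min 1 ρ ^ 2) ^ M₀ * min 1 ρ ^ (2 * M₀) = (C₀ * (1 + ρ)) ^ M₀ := by
    rw [pow_mul, ← mul_pow, div_mul_cancel₀ _ (by positivity)]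
  have h3 : (C₀ * (1 + ρ)) ^ M₀ ≤ Real.exp (M₀ * (Real.log (2 * C₀) + Real.log R)) := by
    rw [← Real.log_mul (by positivity) (by positivity), ← Real.log_pow, Real.exp_log (by positivity)]
    refine pow_le_pow_left₀ (by positivity) ?_ M₀
    nlinarith
  have h4 : Real.exp (-(c * (z.im ^ 2 / (ρ * (ρ ^ 2 + 4)) / (2 * Y)))) ≤
      Real.exp (-(κ * (c * ρ) * (1 - Real.cos (2 * z.arg)))) := by
    apply Real.exp_le_exp.2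
    apply neg_le_neg
    have e1 : 1 - Real.cos (2 * z.arg) = 2 * z.im ^ 2 / ρ ^ 2 := by
      rw [Pool.Agent.Helper29.EV2.cos_two_arg z hz, ← hρe]
      have e : (z ^ 2).re = z.re ^ 2 - z.im ^ 2 := by
        rw [pow_two, Complex.mul_re]
        ring
      have e2 : ρ ^ 2 = z.re ^ 2 + z.im ^ 2 := by
        rw [hρe, ← Complex.normSq_eq_norm_sq, Complex.normSq_apply]
        ring
      rw [e]
      field_simp
      linarith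
    rw [e1]
    have e2 : κ * (c * ρ) * (2 * z.im ^ 2 / ρ ^ 2) = c * (z.im ^ 2 / ρ * (2 * κ)) := by
      field_simp
    have e3 : z.im ^ 2 / (ρ * (ρ ^ 2 + 4)) / (2 * Y) = z.im ^ 2 / ρ * (1 / ((ρ ^ 2 + 4) * (2 * Y))) := by
      field_simp
    rw [e2, e3]
    refine mul_le_mul_of_nonneg_left ?_ (Nat.cast_nonneg c)
    refine mul_le_mul_of_nonneg_left ?_ (by positivity)
    rw [le_div_iff₀ (by positivity)]
    have e4 : (ρ ^ 2 + 4) * (2 * Y) ≤ 5 * R * (2 * (2 * √R)) := by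
      refine mul_le_mul (by linarith) (by linarith) (by positivity) (by positivity)
    calc 2 * κ * ((ρ ^ 2 + 4) * (2 * Y)) ≤ 2 * κ * (5 * R * (2 * (2 * √R))) :=
          mul_le_mul_of_nonneg_left e4 (by positivity)
      _ = κ * (40 * (R * √R)) := by ring
      _ ≤ 1 := hκ
  have h5 : Y ^ c = Real.exp (c * EVC.A (ρ ^ 2)) := by
    rw [hY, Pool.Agent.Helper29.PL.Yf_pow (sq_nonneg ρ)]
  rw [← hY, h5] at h1
  calc ‖aeval z p‖ * min 1 ρ ^ (2 * M₀)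
      ≤ (C₀ * (1 + ρ) / min 1 ρ ^ 2) ^ M₀ * (Real.exp (c * EVC.A (ρ ^ 2)) *
        Real.exp (-(c * (z.im ^ 2 / (ρ * (ρ ^ 2 + 4)) / (2 * Y))))) * min 1 ρ ^ (2 * M₀) :=
        mul_le_mul_of_nonneg_right h1 (by positivity)
    _ = (C₀ * (1 + ρ)) ^ M₀ * (Real.exp (c * EVC.A (ρ ^ 2)) *
        Real.exp (-(c * (z.im ^ 2 / (ρ * (ρ ^ 2 + 4)) / (2 * Y))))) := by rw [← h2]; ring
    _ ≤ Real.exp (M₀ * (Real.log (2 * C₀) + Real.log R)) * (Real.exp (c * EVC.A (ρ ^ 2)) *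
        Real.exp (-(κ * (c * ρ) * (1 - Real.cos (2 * z.arg))))) := by
        refine mul_le_mul h3 (mul_le_mul_of_nonneg_left h4 (Real.exp_pos _).le) (by positivity) (Real.exp_pos _).le
    _ = _ := by
        rw [← Real.exp_add, ← Real.exp_add]
        congr 1
        ring

/-- the same from a bound of the square -/
theorem upZ_of_sq {c : ℕ} {p : ℤ[X]} {D : ℂ → ℝ} {C₀ : ℝ} (hC₀ : 1 ≤ C₀) {M₀ : ℕ}
    (hp : ∀ s : ℂ, s ≠ 0 → ‖aeval (s⁻¹ - s) p‖ * ‖s‖ ^ c = D s)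
    (H : ∀ (s : ℂ) (σ : ℝ), s ≠ 0 → ‖s‖ < 1 → 1 ≤ σ → 1 + ‖s‖ ^ 4 + 2 * s.im ^ 2 ≤ σ ^ 2 + ‖s‖ ^ 4 / σ ^ 2 →
      D s ^ 2 ≤ (C₀ * (1 + ‖s⁻¹ - s‖) / min 1 ‖s⁻¹ - s‖ ^ 2) ^ M₀ * (σ ^ 2) ^ c)
    {R κ : ℝ} (hR : 1 ≤ R) (hκ0 : 0 ≤ κ) (hκ : κ * (40 * (R * √R)) ≤ 1) :
    Pool.Agent.Helper57.GD.UpZ (M₀ * (Real.log (2 * C₀) + Real.log R)) (2 * M₀) κ R c p := by
  refine upZ_of hC₀ hp (fun s σ hs hs1 hσ1 hσ => ?_) hR hκ0 hκ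
  have hD0 : 0 ≤ D s := by
    rw [← hp s hs]
    positivity
  have hz : s⁻¹ - s ≠ 0 := by
    intro h0
    have h1 : s⁻¹ = s := sub_eq_zero.1 h0
    have h2 : ‖s‖⁻¹ = ‖s‖ := by rw [← norm_inv, h1]
    have h3 : 0 < ‖s‖ := norm_pos_iff.2 hs
    have h4 : 1 < ‖s‖⁻¹ := (one_lt_inv₀ h3).2 hs1
    linarith
  have hρ : 0 < ‖s⁻¹ - s‖ := norm_pos_iff.2 hz
  have hmin : 0 < min 1 ‖s⁻¹ - s‖ := lt_min one_pos hρ
  have hX : 1 ≤ C₀ * (1 + ‖s⁻¹ - s‖) / min 1 ‖s⁻¹ - s‖ ^ 2 := by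
    rw [one_le_div (by positivity)]
    have h1 : min 1 ‖s⁻¹ - s‖ ^ 2 ≤ 1 := pow_le_one₀ hmin.le (min_le_left _ _)
    nlinarith
  have h1 := H s σ hs hs1 hσ1 hσ
  refine abs_le_of_sq_le_sq' (h1.trans ?_) (by positivity) |>.2
  rw [mul_pow, ← pow_mul σ, ← pow_mul σ, mul_comm c 2]
  refine mul_le_mul_of_nonneg_right ?_ (by positivity)
  rw [← pow_mul]
  exact pow_le_pow_right₀ hX (by omega)

/-- `r² = h² - c² = |z|² / 4` for `h = (|s|⁻¹ + |s|) / 2`, `c = Re s / |s|` -/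
theorem r_sq {s : ℂ} (hs : s ≠ 0) :
    ((‖s‖⁻¹ + ‖s‖) / 2) ^ 2 - (s.re / ‖s‖) ^ 2 = ‖s⁻¹ - s‖ ^ 2 / 4 := by
  have h1 : 0 < ‖s‖ := norm_pos_iff.2 hs
  have hna : s.re ^ 2 + s.im ^ 2 = ‖s‖ ^ 2 := by
    rw [← Complex.normSq_eq_norm_sq, Complex.normSq_apply]
    ring
  have hre : (s⁻¹ - s).re = s.re * (1 - ‖s‖ ^ 2) / ‖s‖ ^ 2 := by
    rw [Complex.sub_re, Complex.inv_re, Complex.normSq_eq_norm_sq]
    field_simp
  have him : (s⁻¹ - s).im = -(s.im * (1 + ‖s‖ ^ 2) / ‖s‖ ^ 2) := by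
    rw [Complex.sub_im, Complex.inv_im, Complex.normSq_eq_norm_sq]
    field_simp
    ring
  have h2 : ‖s⁻¹ - s‖ ^ 2 = (s⁻¹ - s).re ^ 2 + (s⁻¹ - s).im ^ 2 := by
    rw [← Complex.normSq_eq_norm_sq, Complex.normSq_apply]
    ring
  rw [h2, hre, him]
  have h3 : s.im ^ 2 = ‖s‖ ^ 2 - s.re ^ 2 := by linarith
  have h4 : (-(s.im * (1 + ‖s‖ ^ 2) / ‖s‖ ^ 2)) ^ 2 = (‖s‖ ^ 2 - s.re ^ 2) * (1 + ‖s‖ ^ 2) ^ 2 / ‖s‖ ^ 4 := by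
    rw [← h3]
    field_simp
  rw [h4]
  field_simp
  ring

section shadow

open Pool.Agent.Helper85.Exp Pool.Agent.Helper2.PD Pool.Agent.Helper57.PD Pool.Agent.Helper16.PD Pool.Agent.Helper60.EV2
  Pool.Agent.Helper27.EV2 Matrix

variable {P : Type} {G : Sh P} [Fintype P] {s : ℕ}

open Classical in
/-- the hypothesis `hp` of `upZ_of` from `one_shadow` -/
theorem hp_of (h : Good s G) (b : P) {nab : Dg G → Polynomial ℤ} {e : Cr G ≃ (fdG h b).Col} {α : ℤ}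
    (hform : ∀ z : ℂ, z ≠ 0 → W G.nxt G.op (kd z z⁻¹ (allPos G)) b =
        z ^ ((Nat.card (Cr G) : ℤ) + α) * Polynomial.aeval (z⁻¹ - z) (nab (allPos G)))
    (hA : ∀ z : ℂ, z ≠ 0 → ‖W G.nxt G.op (kd z z⁻¹ (allPos G)) b‖ =
        ‖z‖ ^ α * ‖(((fdG h b).A (z ^ 2) (-z) (-z)).submatrix id e).det‖) (z : ℂ) (hz : z ≠ 0) :
    ‖aeval (z⁻¹ - z) (nab (allPos G))‖ * ‖z‖ ^ (Nat.card (Cr G)) =
      ‖(((fdG h b).A (z ^ 2) (-z) (-z)).submatrix id e).det‖ := by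
  have h1 := hA z hz
  have hn : ‖z‖ ≠ 0 := norm_ne_zero_iff.2 hz
  rw [hform z hz, norm_mul, norm_zpow, zpow_add₀ hn, zpow_natCast] at h1
  have h2 : ‖z‖ ^ α ≠ 0 := zpow_ne_zero _ hn
  refine mul_left_cancel₀ h2 ?_
  rw [← h1]
  ring

end shadow

end Pool.Agent.Helper8.GD
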