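import Pool.Agent.Helper7.UNI.DecD

/-!
# GPOLY, (F): removing the powers of `|Re z|`

`helper7`'s `upperD` for an entire function `f` with `|Re ζ| ^ m ‖f ζ‖ ≤ B Yf(|ζ|² - 2 (Im ζ)² / (|ζ|² + 4)) ^ L` near the circle `|ζ| = |z|`.
-/

set_option autoImplicit false

namespace Pool.Agent.Helper8.GD

open Pool.Agent.Helper7.UNI

theorem upper_pow {f : ℂ → ℂ} (hf : Differentiable ℂ f) {m L : ℕ} {B : ℝ} (hB : 0 ≤ B) {z : ℂ} (hz : z ≠ 0)
    (H : ∀ ζ : ℂ, ‖z‖ / 2 ≤ ‖ζ‖ → ‖ζ‖ ≤ ‖z‖ + 1 →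
      |ζ.re| ^ m * ‖f ζ‖ ≤ B * Yf (‖ζ‖ ^ 2 - 2 * ζ.im ^ 2 / (‖ζ‖ ^ 2 + 4)) ^ L) :
    ‖f z‖ ≤ B * (48 * (‖z‖ ^ 2 + 1) / ‖z‖) ^ m * (Yf (‖z‖ ^ 2) ^ L *
      Real.exp (-(L * (‖z‖ * (1 - Real.cos (2 * z.arg)) / (64 * Yf (‖z‖ ^ 2) * (‖z‖ ^ 2 + 1)))))) := by
  obtain ⟨ρ, hρ⟩ : ∃ ρ, ρ = ‖z‖ := ⟨_, rfl⟩
  have hρ0 : 0 < ρ := by rw [hρ]; exact norm_pos_iff.2 hz
  obtain ⟨R, hR⟩ : ∃ R, R = Yf (ρ ^ 2) := ⟨_, rfl⟩
  have hR1 : 1 ≤ R := by rw [hR]; exact Yf_ge_one (sq_nonneg ρ)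
  obtain ⟨c, hc⟩ : ∃ c, c = 1 - Real.cos (2 * z.arg) := ⟨_, rfl⟩
  have hρ2 : ρ ^ 2 = z.re ^ 2 + z.im ^ 2 := by
    rw [hρ, ← Complex.normSq_eq_norm_sq, Complex.normSq_apply]
    ring
  have hcim : c * ρ ^ 2 = 2 * z.im ^ 2 := by
    rw [hc, Pool.Agent.Helper29.EV2.cos_two_arg z hz, ← hρ]
    have e : (z ^ 2).re = z.re ^ 2 - z.im ^ 2 := by
      rw [pow_two, Complex.mul_re]
      ring
    rw [e]
    field_simp
    linarith
  have hc0 : 0 ≤ c := by rw [hc]; linarith [Real.cos_le_one (2 * z.arg)]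
  have hc2 : c ≤ 2 := by rw [hc]; linarith [Real.neg_one_le_cos (2 * z.arg)]
  obtain ⟨A, hA⟩ : ∃ A, A = ‖f z‖ := ⟨_, rfl⟩
  have hA0 : 0 ≤ A := by rw [hA]; exact norm_nonneg _
  rw [← hρ] at H
  rw [← hρ, ← hR, ← hc, ← hA]
  obtain ⟨E, hE⟩ : ∃ E, E = Real.exp (-(L * (ρ * c / (64 * R * (ρ ^ 2 + 1))))) := ⟨_, rfl⟩
  rw [← hE]
  have hE0 : 0 < E := by rw [hE]; exact Real.exp_pos _
  obtain ⟨D, hD⟩ : ∃ D, D = ρ / (24 * (ρ ^ 2 + 1)) := ⟨_, rfl⟩
  have hD0 : 0 < D := by rw [hD]; positivity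
  have hDe : D * (24 * (ρ ^ 2 + 1)) = ρ := by rw [hD]; exact div_mul_cancel₀ _ (by positivity)
  have hDρ : 24 * D ≤ ρ := by nlinarith [mul_nonneg hD0.le (sq_nonneg ρ)]
  have hD1 : D ≤ 1 := by
    rw [hD, div_le_one (by positivity)]
    nlinarith [sq_nonneg (ρ - 1)]
  have hq : 48 * (ρ ^ 2 + 1) / ρ = 2 / D := by
    rw [div_eq_div_iff hρ0.ne' hD0.ne']
    linarith
  rw [hq]
  have hRL : 0 ≤ R ^ L * E := by positivity
  rcases le_or_gt D |z.re| with hcase | hcase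
  · -- far from the imaginary axis
    have h1 := H z (by rw [← hρ]; linarith) (by rw [← hρ]; linarith)
    rw [← hρ, ← hA] at h1
    obtain ⟨g, hg⟩ : ∃ g, g = z.im ^ 2 / (ρ * (ρ ^ 2 + 4)) := ⟨_, rfl⟩
    have hg0 : 0 ≤ g := by rw [hg]; positivity
    have hgρ : g ≤ ρ := by
      rw [hg, div_le_iff₀ (by positivity)]
      have : z.im ^ 2 ≤ ρ ^ 2 := by rw [hρ2]; linarith [sq_nonneg z.re]
      nlinarith [sq_nonneg (ρ ^ 2), sq_nonneg ρ]
    have h2 := ypow (X := ρ ^ 2 - 2 * z.im ^ 2 / (ρ ^ 2 + 4)) hρ0 hg0 hgρ (by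
      rw [hg]
      apply le_of_eq
      field_simp) L
    rw [← hR] at h2
    have h3 : Real.exp (-(L * (g / (2 * R)))) ≤ E := by
      rw [hE]
      apply Real.exp_le_exp.2
      apply neg_le_neg
      refine mul_le_mul_of_nonneg_left ?_ (Nat.cast_nonneg _)
      rw [hg, div_div, div_le_div_iff₀ (by positivity) (by positivity)]
      have h4 : z.im ^ 2 = c * ρ ^ 2 / 2 := by linarith
      rw [h4]
      have h5 : 0 ≤ ρ ^ 2 * c * R * ρ * (ρ ^ 2 * 60 + 48) := by positivity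
      nlinarith [h5]
    have h6 : D ^ m * A ≤ B * (R ^ L * E) := by
      calc D ^ m * A ≤ |z.re| ^ m * A := mul_le_mul_of_nonneg_right (pow_le_pow_left₀ hD0.le hcase m) hA0
        _ ≤ _ := h1
        _ ≤ B * (R ^ L * E) := by
          refine mul_le_mul_of_nonneg_left ?_ hB
          exact h2.trans (mul_le_mul_of_nonneg_left h3 (by positivity))
    have h7 : A ≤ (1 / D) ^ m * (B * (R ^ L * E)) := by
      have h8 : (1 / D) ^ m * D ^ m = 1 := by
        rw [← mul_pow, one_div, inv_mul_cancel₀ hD0.ne', one_pow]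
      calc A = (1 / D) ^ m * (D ^ m * A) := by rw [← mul_assoc, h8, one_mul]
        _ ≤ _ := mul_le_mul_of_nonneg_left h6 (by positivity)
    calc A ≤ (1 / D) ^ m * (B * (R ^ L * E)) := h7
      _ ≤ (2 / D) ^ m * (B * (R ^ L * E)) := by
        refine mul_le_mul_of_nonneg_right (pow_le_pow_left₀ (by positivity) ?_ m) (mul_nonneg hB hRL)
        exact div_le_div_of_nonneg_right (by norm_num) hD0.le
      _ = _ := by ring
  · -- near the imaginary axis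
    obtain ⟨z1, hz1⟩ : ∃ z1 : ℂ, z1 = (z.im : ℂ) * Complex.I := ⟨_, rfl⟩
    have hz1re : z1.re = 0 := by rw [hz1]; simp
    have hz1im : z1.im = z.im := by rw [hz1]; simp
    obtain ⟨F, hF⟩ : ∃ F : ℂ → ℂ, F = fun ζ => f ζ * ((ζ - z1) ^ 2 + (D : ℂ) ^ 2) ^ m := ⟨_, rfl⟩
    obtain ⟨g, hg⟩ : ∃ g, g = ρ / (16 * (ρ ^ 2 + 1)) := ⟨_, rfl⟩
    have hg0 : 0 ≤ g := by rw [hg]; positivity
    have hgρ : g ≤ ρ := by
      rw [hg, div_le_iff₀ (by positivity)]
      nlinarith [sq_nonneg ρ, mul_nonneg hρ0.le (sq_nonneg ρ)]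
    have hexp : Real.exp (-(L * (g / (2 * R)))) ≤ E := by
      rw [hE]
      apply Real.exp_le_exp.2
      apply neg_le_neg
      refine mul_le_mul_of_nonneg_left ?_ (Nat.cast_nonneg _)
      rw [hg, div_div, div_le_div_iff₀ (by positivity) (by positivity)]
      have h5 : 0 ≤ ρ * R * (ρ ^ 2 + 1) * (2 - c) := mul_nonneg (by positivity) (by linarith)
      nlinarith [h5]
    have hfr : ∀ ζ ∈ frontier (Metric.ball z1 D), ‖F ζ‖ ≤ (2 * D) ^ m * (B * (R ^ L * E)) := by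
      intro ζ hζ
      rw [frontier_ball z1 hD0.ne', Metric.mem_sphere, dist_eq_norm] at hζ
      have h1 : ‖(ζ - z1) ^ 2 + (D : ℂ) ^ 2‖ = 2 * D * |ζ.re| := by
        have e1 : ((D : ℂ)) ^ 2 = (ζ - z1) * (starRingEnd ℂ) (ζ - z1) := by
          rw [Complex.mul_conj, Complex.normSq_eq_norm_sq, hζ]
          push_cast
          rfl
        have e2 : (ζ - z1) ^ 2 + (D : ℂ) ^ 2 = (ζ - z1) * (((2 * (ζ - z1).re : ℝ)) : ℂ) := by
          rw [e1, ← Complex.add_conj]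
          ring
        rw [e2, norm_mul, hζ, Complex.norm_real, Real.norm_eq_abs, Complex.sub_re, hz1re, sub_zero, abs_mul, abs_two]
        ring
      have hζn : ‖ζ‖ ≤ ρ + D := by
        have h3 : ‖z1‖ ≤ ρ := by
          rw [hz1, norm_mul, Complex.norm_I, mul_one, Complex.norm_real, Real.norm_eq_abs, hρ]
          exact Complex.abs_im_le_norm z
        have h4 : ζ = (ζ - z1) + z1 := by ring
        rw [h4]
        refine (norm_add_le _ _).trans ?_
        rw [hζ]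
        linarith
      have him : ρ - 2 * D ≤ |ζ.im| := by
        have h3 : |(ζ - z1).im| ≤ D := by rw [← hζ]; exact Complex.abs_im_le_norm _
        rw [Complex.sub_im, hz1im] at h3
        have h4 : ρ - D ≤ |z.im| := by
          apply abs_le_of_sq_le_sq' _ (abs_nonneg _) |>.2
          rw [sq_abs]
          have h5 : z.re ^ 2 ≤ D ^ 2 := by
            rw [← sq_abs z.re]
            exact pow_le_pow_left₀ (abs_nonneg _) hcase.le 2
          nlinarith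
        have h5 : |z.im| ≤ |ζ.im| + D := by
          have h6 : z.im = ζ.im - (ζ.im - z.im) := by ring
          calc |z.im| = |ζ.im - (ζ.im - z.im)| := by rw [← h6]
            _ ≤ |ζ.im| + |ζ.im - z.im| := abs_sub _ _
            _ ≤ _ := by linarith
        linarith
      have him2 : ρ ^ 2 ≤ 2 * ζ.im ^ 2 := by
        have h3 : (11 / 12) * ρ ≤ |ζ.im| := by linarith
        have h4 : ((11 / 12) * ρ) ^ 2 ≤ ζ.im ^ 2 := by
          rw [← sq_abs ζ.im]
          exact pow_le_pow_left₀ (by positivity) h3 2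
        nlinarith [sq_nonneg ρ]
      have h2 := H ζ (by
        have h3 := Complex.abs_im_le_norm ζ
        linarith) (by linarith)
      have hn2 : ‖ζ‖ ^ 2 ≤ ρ ^ 2 + 3 * ρ * D := by
        have h3 : ‖ζ‖ ^ 2 ≤ (ρ + D) ^ 2 := pow_le_pow_left₀ (norm_nonneg _) hζn 2
        nlinarith
      have hX : ‖ζ‖ ^ 2 - 2 * ζ.im ^ 2 / (‖ζ‖ ^ 2 + 4) ≤ ρ ^ 2 - 2 * ρ * g := by
        have h3 : ‖ζ‖ ^ 2 + 4 ≤ 4 * (ρ ^ 2 + 1) := by nlinarith
        have h4 : ρ ^ 2 / (4 * (ρ ^ 2 + 1)) ≤ 2 * ζ.im ^ 2 / (‖ζ‖ ^ 2 + 4) :=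
          div_le_div₀ (by positivity) him2 (by positivity) h3
        have h5 : 3 * ρ * D = ρ ^ 2 / (8 * (ρ ^ 2 + 1)) := by
          rw [hD]
          field_simp
          norm_num
        have h6 : 2 * ρ * g = ρ ^ 2 / (8 * (ρ ^ 2 + 1)) := by
          rw [hg]
          field_simp
          norm_num
        have h7 : ρ ^ 2 / (4 * (ρ ^ 2 + 1)) = 2 * (ρ ^ 2 / (8 * (ρ ^ 2 + 1))) := by
          field_simp
          norm_num
        rw [h6]
        linarith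
      have h8 := ypow hρ0 hg0 hgρ hX L
      rw [← hR] at h8
      rw [hF]
      simp only
      rw [norm_mul, norm_pow, h1]
      calc ‖f ζ‖ * (2 * D * |ζ.re|) ^ m
          = (2 * D) ^ m * (|ζ.re| ^ m * ‖f ζ‖) := by rw [mul_pow]; ring
        _ ≤ (2 * D) ^ m * (B * Yf (‖ζ‖ ^ 2 - 2 * ζ.im ^ 2 / (‖ζ‖ ^ 2 + 4)) ^ L) :=
          mul_le_mul_of_nonneg_left h2 (by positivity)
        _ ≤ _ := by
          refine mul_le_mul_of_nonneg_left ?_ (by positivity)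
          refine mul_le_mul_of_nonneg_left ?_ hB
          exact h8.trans (mul_le_mul_of_nonneg_left hexp (by positivity))
    have hdiff : Differentiable ℂ F := by
      rw [hF]
      exact hf.mul (by fun_prop)
    have hz1z : z - z1 = (z.re : ℂ) := by
      apply Complex.ext
      · rw [Complex.sub_re, hz1re, sub_zero, Complex.ofReal_re]
      · rw [Complex.sub_im, hz1im, sub_self, Complex.ofReal_im]
    have hcl : z ∈ closure (Metric.ball z1 D) := by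
      apply subset_closure
      rw [Metric.mem_ball, dist_eq_norm, hz1z, Complex.norm_real, Real.norm_eq_abs]
      exact hcase
    have hmax := Complex.norm_le_of_forall_mem_frontier_norm_le Metric.isBounded_ball hdiff.diffContOnCl hfr hcl
    have hfz : A * (D ^ 2) ^ m ≤ ‖F z‖ := by
      rw [hF]
      simp only
      rw [norm_mul, norm_pow, ← hA]
      refine mul_le_mul_of_nonneg_left ?_ hA0
      have h2 : (z - z1) ^ 2 + (D : ℂ) ^ 2 = ((z.re ^ 2 + D ^ 2 : ℝ) : ℂ) := by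
        rw [hz1z]
        push_cast
        ring
      rw [h2, Complex.norm_real, Real.norm_of_nonneg (by positivity)]
      exact pow_le_pow_left₀ (by positivity) (by nlinarith [sq_nonneg z.re]) m
    have h1 : A * (D ^ 2) ^ m ≤ (2 * D) ^ m * (B * (R ^ L * E)) := hfz.trans hmax
    have h2 : (2 / D) ^ m * (D ^ 2) ^ m = (2 * D) ^ m := by
      rw [← mul_pow]
      congr 1
      field_simp
    have h3 : 0 < (D ^ 2) ^ m := by positivity
    refine le_of_mul_le_mul_right ?_ h3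
    calc A * (D ^ 2) ^ m ≤ (2 * D) ^ m * (B * (R ^ L * E)) := h1
      _ = B * (2 / D) ^ m * (R ^ L * E) * (D ^ 2) ^ m := by rw [← h2]; ring

end Pool.Agent.Helper8.GD
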